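import Mathlib
import Pool.Agent.Y293.FA.Stm
import Pool.Agent.Y293.FA.Base

set_option autoImplicit false

/-!
# The `L²` distance of two averages as a double integral
-/

namespace Pool.Agent.Y891.FA

open MeasureTheory Set Filter Topology
open Pool.Agent.Y293.FA

theorem cont_kk (c d : ℝ) : Continuous (kk c d) := by
  unfold kk
  fun_prop

theorem kk_nonneg {c d : ℝ} (hc : 0 < c) (hd : 0 < d) (u : ℝ) : 0 ≤ kk c d u := by
  unfold kk
  have : 0 ≤ (c * d)⁻¹ := by positivity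
  exact mul_nonneg this (le_max_left _ _)

theorem kk_le {c d : ℝ} (hc : 0 < c) (hd : 0 < d) (u : ℝ) : kk c d u ≤ (c * d)⁻¹ * min c d := by
  unfold kk
  refine mul_le_mul_of_nonneg_left ?_ (by positivity)
  refine max_le (le_min hc.le hd.le) (min_le_left _ _)

theorem integrable_kk {c d : ℝ} (hc : 0 < c) (hd : 0 < d) (m : Measure ℝ)
    [IsFiniteMeasure m] :
    Integrable (fun p : ℝ × ℝ => kk c d (p.1 - p.2)) (m.prod m) := by
  refine Integrable.of_bound
    ((cont_kk c d).comp (continuous_fst.sub continuous_snd)).aestronglyMeasurable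
    ((c * d)⁻¹ * min c d) (ae_of_all _ fun p => ?_)
  rw [Real.norm_of_nonneg (kk_nonneg hc hd _)]
  exact kk_le hc hd _

theorem overlap (c d x y : ℝ) :
    max 0 (min (x + c / 2) (y + d / 2) - max (x - c / 2) (y - d / 2)) =
      max 0 (min (min c d) ((c + d) / 2 - |x - y|)) := by
  congr 1
  rcases abs_cases (x - y) with ⟨h, h'⟩ | ⟨h, h'⟩ <;> rw [h] <;>
  rcases min_cases (x + c / 2) (y + d / 2) with ⟨h1, h1'⟩ | ⟨h1, h1'⟩ <;> rw [h1] <;>
  rcases max_cases (x - c / 2) (y - d / 2) with ⟨h2, h2'⟩ | ⟨h2, h2'⟩ <;> rw [h2] <;>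
  rcases min_cases c d with ⟨h3, h3'⟩ | ⟨h3, h3'⟩ <;> rw [h3] <;>
  rw [eq_comm, min_def] <;> split_ifs <;> linarith

/-- The indicator of the strip. -/
noncomputable def G (c d : ℝ) (q : ℝ × (ℝ × ℝ)) : ℝ :=
  {q : ℝ × (ℝ × ℝ) | |q.2.1 - q.1| ≤ c / 2 ∧ |q.2.2 - q.1| ≤ d / 2}.indicator
    (fun _ => (c * d)⁻¹) q

theorem measurableSet_G (c d : ℝ) :
    MeasurableSet {q : ℝ × (ℝ × ℝ) | |q.2.1 - q.1| ≤ c / 2 ∧ |q.2.2 - q.1| ≤ d / 2} := by
  have h1 : MeasurableSet {q : ℝ × (ℝ × ℝ) | |q.2.1 - q.1| ≤ c / 2} :=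
    measurableSet_le (by fun_prop) (by fun_prop)
  have h2 : MeasurableSet {q : ℝ × (ℝ × ℝ) | |q.2.2 - q.1| ≤ d / 2} :=
    measurableSet_le (by fun_prop) (by fun_prop)
  exact h1.inter h2

theorem measurable_G (c d : ℝ) : Measurable (G c d) := by
  unfold G
  exact measurable_const.indicator (measurableSet_G c d)

theorem G_eq (c d t : ℝ) (p : ℝ × ℝ) : G c d (t, p) =
    (Icc (p.1 - c / 2) (p.1 + c / 2) ∩ Icc (p.2 - d / 2) (p.2 + d / 2)).indicator
      (fun _ => (c * d)⁻¹) t := by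
  unfold G
  have h : (t, p) ∈ {q : ℝ × (ℝ × ℝ) | |q.2.1 - q.1| ≤ c / 2 ∧ |q.2.2 - q.1| ≤ d / 2} ↔
      t ∈ Icc (p.1 - c / 2) (p.1 + c / 2) ∩ Icc (p.2 - d / 2) (p.2 + d / 2) := by
    rw [mem_inter_iff, mem_Icc_av, mem_Icc_av, abs_sub_comm t p.1, abs_sub_comm t p.2]
    rfl
  by_cases h1 : t ∈ Icc (p.1 - c / 2) (p.1 + c / 2) ∩ Icc (p.2 - d / 2) (p.2 + d / 2)
  · rw [indicator_of_mem h1, indicator_of_mem (h.2 h1)]
  · rw [indicator_of_notMem h1, indicator_of_notMem (fun h2 => h1 (h.1 h2))]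

theorem G_eq' (c d t : ℝ) (p : ℝ × ℝ) : G c d (t, p) =
    (Icc (t - c / 2) (t + c / 2)).indicator (fun _ => c⁻¹) p.1 *
      (Icc (t - d / 2) (t + d / 2)).indicator (fun _ => d⁻¹) p.2 := by
  unfold G
  have h : (t, p) ∈ {q : ℝ × (ℝ × ℝ) | |q.2.1 - q.1| ≤ c / 2 ∧ |q.2.2 - q.1| ≤ d / 2} ↔
      p.1 ∈ Icc (t - c / 2) (t + c / 2) ∧ p.2 ∈ Icc (t - d / 2) (t + d / 2) := by
    rw [mem_Icc_av, mem_Icc_av]
    rfl
  by_cases h1 : p.1 ∈ Icc (t - c / 2) (t + c / 2)
  · by_cases h2 : p.2 ∈ Icc (t - d / 2) (t + d / 2)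
    · rw [indicator_of_mem (h.2 ⟨h1, h2⟩), indicator_of_mem h1, indicator_of_mem h2, mul_inv]
    · rw [indicator_of_notMem (fun h3 => h2 (h.1 h3).2), indicator_of_notMem h2, mul_zero]
  · rw [indicator_of_notMem (fun h3 => h1 (h.1 h3).1), indicator_of_notMem h1, zero_mul]

theorem G_nonneg {c d : ℝ} (hc : 0 < c) (hd : 0 < d) (q : ℝ × (ℝ × ℝ)) : 0 ≤ G c d q := by
  unfold G
  refine indicator_nonneg (fun _ _ => ?_) _
  positivity

theorem integral_G (c d : ℝ) (p : ℝ × ℝ) : ∫ t, G c d (t, p) = kk c d (p.1 - p.2) := by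
  simp only [G_eq]
  rw [integral_indicator (measurableSet_Icc.inter measurableSet_Icc), setIntegral_const,
    Icc_inter_Icc, Real.volume_real_Icc, smul_eq_mul, mul_comm, kk]
  congr 1
  rw [max_comm]
  exact overlap c d p.1 p.2

theorem integrable_G_left (c d : ℝ) (p : ℝ × ℝ) : Integrable fun t => G c d (t, p) := by
  simp only [G_eq]
  rw [integrable_indicator_iff (measurableSet_Icc.inter measurableSet_Icc)]
  refine integrableOn_const ?_ ?_
  · exact ((measure_mono inter_subset_left).trans_lt (by simp)).ne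
  · exact enorm_ne_top

theorem integrable_G {c d : ℝ} (hc : 0 < c) (hd : 0 < d) (m : Measure ℝ)
    [IsFiniteMeasure m] : Integrable (G c d) ((volume : Measure ℝ).prod (m.prod m)) := by
  rw [integrable_prod_iff' (measurable_G c d).aestronglyMeasurable]
  refine ⟨ae_of_all _ fun p => integrable_G_left c d p, ?_⟩
  have h : (fun p : ℝ × ℝ => ∫ t, ‖G c d (t, p)‖) = fun p => kk c d (p.1 - p.2) := by
    funext p
    rw [← integral_G c d p]
    refine integral_congr_ae (ae_of_all _ fun t => ?_)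
    exact Real.norm_of_nonneg (G_nonneg hc hd _)
  rw [h]
  exact integrable_kk hc hd m

/-- The product of two averages. -/
theorem integral_av_mul {c d : ℝ} (hc : 0 < c) (hd : 0 < d) (m : Measure ℝ)
    [IsFiniteMeasure m] :
    ∫ t, av c m t * av d m t = ∫ p : ℝ × ℝ, kk c d (p.1 - p.2) ∂(m.prod m) := by
  have h1 : ∀ t, av c m t * av d m t = ∫ p, G c d (t, p) ∂(m.prod m) := by
    intro t
    simp only [G_eq']
    rw [integral_prod_mul (μ := m) (ν := m)
      (fun x => (Icc (t - c / 2) (t + c / 2)).indicator (fun _ => c⁻¹) x)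
      (fun y => (Icc (t - d / 2) (t + d / 2)).indicator (fun _ => d⁻¹) y),
      av_eq_integral, av_eq_integral]
  simp only [h1]
  rw [integral_integral_swap (f := fun t p => G c d (t, p)) (integrable_G hc hd m)]
  simp only [integral_G]

theorem integral_lin {α : Type*} [MeasurableSpace α] {μ : Measure α} {f g h : α → ℝ}
    (hf : Integrable f μ) (hg : Integrable g μ) (hh : Integrable h μ) :
    Integrable (fun x => f x - 2 * g x + h x) μ ∧
    ∫ x, (f x - 2 * g x + h x) ∂μ = (∫ x, f x ∂μ) - 2 * (∫ x, g x ∂μ) + ∫ x, h x ∂μ := by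
  have hg2 : Integrable (fun x => 2 * g x) μ := hg.const_mul 2
  have h1 : Integrable (fun x => f x - 2 * g x) μ := hf.sub hg2
  refine ⟨h1.add hh, ?_⟩
  rw [integral_add h1 hh, integral_sub hf hg2, integral_const_mul]

theorem form : S_FORM := by
  intro m _ a b ha hab
  have hb : 0 < b := ha.trans_le hab
  have hI : ∀ c d : ℝ, 0 < c → 0 < d → Integrable fun t => av c m t * av d m t := by
    intro c d hc hd
    exact (memLp_av hc m).integrable_mul (memLp_av hd m)
  have h1 : dd a b m = (∫ t, av a m t * av a m t) - 2 * (∫ t, av a m t * av b m t) +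
      ∫ t, av b m t * av b m t := by
    unfold dd
    rw [← (integral_lin (hI a a ha ha) (hI a b ha hb) (hI b b hb hb)).2]
    refine integral_congr_ae (ae_of_all _ fun t => ?_)
    simp only
    ring
  have h2 := integral_lin (integrable_kk ha ha m) (integrable_kk ha hb m) (integrable_kk hb hb m)
  rw [h1, integral_av_mul ha ha, integral_av_mul ha hb, integral_av_mul hb hb, ← h2.2]
  exact integral_prod _ h2.1

end Pool.Agent.Y891.FA
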