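import Mathlib
import Pool.Agent.Y293.FA.Stm
import Pool.Agent.Y293.FA.Base
import Pool.Agent.Y891.FA.Form

set_option autoImplicit false

/-!
# Sums of measures on short intervals
-/

namespace Pool.Agent.Y891.FA.Adj

open MeasureTheory Set Filter Topology
open Pool.Agent.Y293.FA

/-- Pairs of close points and the norm of the average. -/
theorem pair_le (f : Measure ℝ) [IsFiniteMeasure f] (r L : ℝ) (hr : 0 < r) (h : r < L) :
    (L - r) * (f.prod f).real {p | |p.1 - p.2| ≤ r} ≤ L ^ 2 * qq L f := by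
  have hL : 0 < L := hr.trans h
  have h1 : qq L f = ∫ p : ℝ × ℝ, kk L L (p.1 - p.2) ∂(f.prod f) := by
    rw [← integral_av_mul hL hL f]
    unfold qq
    refine integral_congr_ae (ae_of_all _ fun t => ?_)
    exact sq _
  have hm : MeasurableSet {p : ℝ × ℝ | |p.1 - p.2| ≤ r} :=
    measurableSet_le (by fun_prop) (by fun_prop)
  have h2 : ∫ p : ℝ × ℝ, {p : ℝ × ℝ | |p.1 - p.2| ≤ r}.indicator
      (fun _ => (L ^ 2)⁻¹ * (L - r)) p ∂(f.prod f) ≤
      ∫ p : ℝ × ℝ, kk L L (p.1 - p.2) ∂(f.prod f) := by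
    refine integral_mono ?_ (integrable_kk hL hL f) ?_
    · exact (integrable_indicator_iff hm).2 (integrable_const _).integrableOn
    · intro p
      by_cases hp : |p.1 - p.2| ≤ r
      · have hp' : p ∈ {p : ℝ × ℝ | |p.1 - p.2| ≤ r} := hp
        simp only [indicator_of_mem hp']
        unfold kk
        rw [← sq]
        refine mul_le_mul_of_nonneg_left ?_ (by positivity)
        refine le_max_of_le_right (le_min (le_min ?_ ?_) ?_) <;> linarith
      · have hp' : p ∉ {p : ℝ × ℝ | |p.1 - p.2| ≤ r} := hp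
        simp only [indicator_of_notMem hp']
        exact kk_nonneg hL hL _
  rw [integral_indicator hm, setIntegral_const, smul_eq_mul] at h2
  rw [h1]
  have h3 := mul_le_mul_of_nonneg_left h2 (by positivity : (0 : ℝ) ≤ L ^ 2)
  calc (L - r) * (f.prod f).real {p | |p.1 - p.2| ≤ r} =
        L ^ 2 * ((f.prod f).real {p : ℝ × ℝ | |p.1 - p.2| ≤ r} * ((L ^ 2)⁻¹ * (L - r))) := by
        field_simp
    _ ≤ _ := h3

/-- Longer windows are covered by shorter ones. -/
theorem cover {L b : ℝ} (hb : 0 < b) (n : ℕ) (hn0 : 0 < n) (hn : L ≤ n * b) (t : ℝ) :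
    Icc (t - L / 2) (t + L / 2) ⊆ ⋃ l ∈ Finset.range n,
      Icc (t + (-L / 2 + b / 2 + l * b) - b / 2) (t + (-L / 2 + b / 2 + l * b) + b / 2) := by
  intro x hx
  have h0 : 0 ≤ (x - (t - L / 2)) / b := div_nonneg (by linarith [hx.1]) hb.le
  have h1 := Nat.floor_le h0
  have h2 := Nat.lt_floor_add_one ((x - (t - L / 2)) / b)
  set l := ⌊(x - (t - L / 2)) / b⌋₊ with hl
  rw [le_div_iff₀ hb] at h1
  rw [div_lt_iff₀ hb] at h2
  rw [mem_iUnion₂]
  rcases Nat.lt_or_ge l n with h3 | h3
  · refine ⟨l, Finset.mem_range.2 h3, ?_, ?_⟩ <;> linarith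
  · obtain ⟨k, rfl⟩ : ∃ k, n = k + 1 := ⟨n - 1, by omega⟩
    have h4 : ((k : ℝ) + 1) ≤ l := by exact_mod_cast h3
    have h5 : ((k : ℝ) + 1) * b ≤ l * b := mul_le_mul_of_nonneg_right h4 hb.le
    push_cast at hn
    refine ⟨k, Finset.mem_range.2 (Nat.lt_succ_self k), ?_, ?_⟩
    · nlinarith
    · nlinarith [hx.2]

theorem real_le_sum {f : Measure ℝ} [IsFiniteMeasure f] {L b : ℝ} (hb : 0 < b) (n : ℕ)
    (hn0 : 0 < n) (hn : L ≤ n * b) (t : ℝ) :
    f.real (Icc (t - L / 2) (t + L / 2)) ≤ ∑ l ∈ Finset.range n,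
      f.real (Icc (t + (-L / 2 + b / 2 + l * b) - b / 2)
        (t + (-L / 2 + b / 2 + l * b) + b / 2)) :=
  (measureReal_mono (cover hb n hn0 hn t) (measure_ne_top f _)).trans
    (measureReal_biUnion_finset_le _ _)

theorem qq_le_four {f : Measure ℝ} [IsFiniteMeasure f] {b L : ℝ} (hb : 0 < b) (h : b ≤ L) :
    qq L f ≤ 4 * qq b f := by
  have hL : 0 < L := hb.trans_le h
  set n := ⌈L / b⌉₊ with hn
  have hn0 : 0 < n := Nat.ceil_pos.2 (by positivity)
  have h1 : L ≤ n * b := by
    have := Nat.le_ceil (L / b)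
    rwa [div_le_iff₀ hb] at this
  have h2 : n * b ≤ 2 * L := by
    have := Nat.ceil_lt_add_one (show 0 ≤ L / b by positivity)
    have h3 : (n : ℝ) * b < (L / b + 1) * b := mul_lt_mul_of_pos_right this hb
    have h4 : (L / b + 1) * b = L + b := by field_simp
    linarith
  set c : ℕ → ℝ := fun l => -L / 2 + b / 2 + l * b with hc
  have h3 : ∀ t, L ^ 2 * av L f t ^ 2 ≤ b ^ 2 * (n * ∑ l ∈ Finset.range n, av b f (t + c l) ^ 2) := by
    intro t
    have h4 : L * av L f t ≤ b * ∑ l ∈ Finset.range n, av b f (t + c l) := by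
      have h5 := real_le_sum (f := f) hb n hn0 h1 t
      have h6 : L * av L f t = f.real (Icc (t - L / 2) (t + L / 2)) := by
        unfold av
        field_simp
      rw [h6, Finset.mul_sum]
      refine h5.trans (le_of_eq (Finset.sum_congr rfl fun l _ => ?_))
      unfold av
      rw [← mul_assoc, mul_inv_cancel₀ hb.ne', one_mul]
    have h5 : 0 ≤ L * av L f t := mul_nonneg hL.le (av_nonneg hL f t)
    have h6 := pow_le_pow_left₀ h5 h4 2
    have h7 : (∑ l ∈ Finset.range n, av b f (t + c l)) ^ 2 ≤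
        n * ∑ l ∈ Finset.range n, av b f (t + c l) ^ 2 := by
      have := sq_sum_le_card_mul_sum_sq (s := Finset.range n) (f := fun l => av b f (t + c l))
      simpa using this
    calc L ^ 2 * av L f t ^ 2 = (L * av L f t) ^ 2 := by ring
      _ ≤ (b * ∑ l ∈ Finset.range n, av b f (t + c l)) ^ 2 := h6
      _ = b ^ 2 * (∑ l ∈ Finset.range n, av b f (t + c l)) ^ 2 := by ring
      _ ≤ _ := mul_le_mul_of_nonneg_left h7 (by positivity)
  have hint : ∀ l ∈ Finset.range n, Integrable fun t => av b f (t + c l) ^ 2 := fun l _ =>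
    (integrable_av_sq hb f).comp_add_right (c l)
  have h4 : L ^ 2 * qq L f ≤ b ^ 2 * (n * ∑ l ∈ Finset.range n, qq b f) := by
    have h5 := integral_mono ((integrable_av_sq hL f).const_mul (L ^ 2))
      (((integrable_finsetSum _ hint).const_mul (n : ℝ)).const_mul (b ^ 2)) h3
    rw [integral_const_mul, integral_const_mul, integral_const_mul, integral_finsetSum _ hint] at h5
    refine h5.trans (le_of_eq ?_)
    congr 2
    refine Finset.sum_congr rfl fun l _ => ?_
    exact integral_add_right_eq_self (fun t => av b f t ^ 2) (c l)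
  rw [Finset.sum_const, Finset.card_range, nsmul_eq_mul] at h4
  have h5 : (n * b) ^ 2 ≤ (2 * L) ^ 2 := pow_le_pow_left₀ (by positivity) h2 2
  have h6 := mul_le_mul_of_nonneg_right h5 (qq_nonneg b f)
  have h7 : L ^ 2 * qq L f ≤ L ^ 2 * (4 * qq b f) := by nlinarith
  exact le_of_mul_le_mul_left h7 (by positivity)

section

variable {ι : Type} [Fintype ι]

theorem finite_sum (p : ι → ℝ) (m : ι → Measure ℝ) [∀ i, IsProbabilityMeasure (m i)] :
    IsFiniteMeasure (∑ i, ENNReal.ofReal (p i) • m i) := by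
  have : ∀ i, IsFiniteMeasure (ENNReal.ofReal (p i) • m i) := fun i =>
    Measure.smul_finite (m i) ENNReal.ofReal_ne_top
  infer_instance

theorem real_sum (p : ι → ℝ) (m : ι → Measure ℝ) [∀ i, IsProbabilityMeasure (m i)]
    (hp : ∀ i, 0 ≤ p i) (s : Set ℝ) :
    (∑ i, ENNReal.ofReal (p i) • m i).real s = ∑ i, p i * (m i).real s := by
  unfold Measure.real
  rw [Measure.finsetSum_apply, ENNReal.toReal_sum]
  · refine Finset.sum_congr rfl fun i _ => ?_
    rw [Measure.smul_apply, smul_eq_mul, ENNReal.toReal_mul, ENNReal.toReal_ofReal (hp i)]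
  · intro i _
    rw [Measure.smul_apply, smul_eq_mul]
    exact ENNReal.mul_ne_top ENNReal.ofReal_ne_top (measure_ne_top _ _)

theorem av_sum (p : ι → ℝ) (m : ι → Measure ℝ) [∀ i, IsProbabilityMeasure (m i)]
    (hp : ∀ i, 0 ≤ p i) (δ t : ℝ) :
    av δ (∑ i, ENNReal.ofReal (p i) • m i) t = ∑ i, p i * av δ (m i) t := by
  unfold av
  rw [real_sum p m hp, Finset.mul_sum]
  refine Finset.sum_congr rfl fun i _ => ?_
  ring

/-- Pointwise estimate. -/
theorem sq_sum_le (p u : ι → ℝ) (hp : ∀ i, 0 ≤ p i) (R : ι → ι → Prop)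
    [∀ i j, Decidable (R i j)] (hR : ∀ i j, u i ≠ 0 → u j ≠ 0 → R i j) :
    (∑ i, p i * u i) ^ 2 ≤ ∑ i, ∑ j, if R i j then p i * p j * ((u i ^ 2 + u j ^ 2) / 2) else 0 := by
  rw [sq, Finset.sum_mul_sum]
  refine Finset.sum_le_sum fun i _ => Finset.sum_le_sum fun j _ => ?_
  split_ifs with h
  · have h1 : u i * u j ≤ (u i ^ 2 + u j ^ 2) / 2 := by nlinarith [sq_nonneg (u i - u j)]
    calc p i * u i * (p j * u j) = p i * p j * (u i * u j) := by ring
      _ ≤ _ := mul_le_mul_of_nonneg_left h1 (mul_nonneg (hp i) (hp j))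
  · have h1 : u i = 0 ∨ u j = 0 := by
      by_contra hc
      push Not at hc
      exact h (hR i j hc.1 hc.2)
    rcases h1 with h1 | h1 <;> rw [h1] <;> simp

theorem av_eq_zero {m : Measure ℝ} {x ρ δ t : ℝ} (hm : m (Icc (x - ρ) (x + ρ))ᶜ = 0)
    (h : ρ + δ / 2 < |t - x|) : av δ m t = 0 := by
  unfold av
  have h1 : m (Icc (t - δ / 2) (t + δ / 2)) = 0 := by
    refine measure_mono_null ?_ hm
    intro y hy hy'
    rw [mem_Icc_av] at hy
    have h2 : |y - x| ≤ ρ := abs_le.2 ⟨by linarith [hy'.1], by linarith [hy'.2]⟩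
    have h3 : |t - x| ≤ |t - y| + |y - x| := abs_sub_le t y x
    rw [abs_sub_comm t y] at h3
    linarith
  unfold Measure.real
  rw [h1]
  simp

theorem av_eq_one {m : Measure ℝ} [IsProbabilityMeasure m] {x ρ L t : ℝ}
    (hm : m (Icc (x - ρ) (x + ρ))ᶜ = 0) (h : |t - x| + ρ ≤ L / 2) : av L m t = L⁻¹ := by
  unfold av
  have h1 : m (Icc (t - L / 2) (t + L / 2))ᶜ = 0 := by
    refine measure_mono_null ?_ hm
    intro y hy hy'
    apply hy
    rw [mem_Icc_av]
    have h2 : |y - x| ≤ ρ := abs_le.2 ⟨by linarith [hy'.1], by linarith [hy'.2]⟩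
    have h3 : |y - t| ≤ |y - x| + |x - t| := abs_sub_le y x t
    rw [abs_sub_comm x t] at h3
    linarith
  rw [prob_compl_eq_zero_iff measurableSet_Icc] at h1
  unfold Measure.real
  rw [h1]
  simp

theorem cross {m m' : Measure ℝ} [IsProbabilityMeasure m] [IsProbabilityMeasure m']
    {x x' ρ : ℝ} (hρ : 0 < ρ) (hm : m (Icc (x - ρ) (x + ρ))ᶜ = 0)
    (hm' : m' (Icc (x' - ρ) (x' + ρ))ᶜ = 0) (h : |x - x'| ≤ 3 * ρ) :
    1 ≤ 20 * ρ * ∫ t, av (10 * ρ) m t * av (10 * ρ) m' t := by
  have hL : (0 : ℝ) < 10 * ρ := by positivity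
  set c := (x + x') / 2 with hc
  set s := Icc (c - 5 / 2 * ρ) (c + 5 / 2 * ρ) with hs
  have h1 : ∫ t, s.indicator (fun _ => (10 * ρ)⁻¹ * (10 * ρ)⁻¹) t ≤
      ∫ t, av (10 * ρ) m t * av (10 * ρ) m' t := by
    refine integral_mono ?_ ((memLp_av hL m).integrable_mul (memLp_av hL m')) ?_
    · rw [integrable_indicator_iff measurableSet_Icc]
      refine integrableOn_const ?_ enorm_ne_top
      exact (by simp : (volume : Measure ℝ) (Icc (c - 5 / 2 * ρ) (c + 5 / 2 * ρ)) < ⊤).ne
    · intro t
      by_cases ht : t ∈ s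
      · have h2 : |t - c| ≤ 5 / 2 * ρ := abs_le.2 ⟨by linarith [ht.1], by linarith [ht.2]⟩
        have h3 : |c - x| ≤ 3 / 2 * ρ := by
          have : c - x = (x' - x) / 2 := by rw [hc]; ring
          rw [this, abs_div, abs_sub_comm, abs_of_pos (by norm_num : (0 : ℝ) < 2)]
          linarith
        have h4 : |c - x'| ≤ 3 / 2 * ρ := by
          have : c - x' = (x - x') / 2 := by rw [hc]; ring
          rw [this, abs_div, abs_of_pos (by norm_num : (0 : ℝ) < 2)]
          linarith
        have h5 := abs_sub_le t c x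
        have h6 := abs_sub_le t c x'
        simp only [indicator_of_mem ht]
        rw [av_eq_one hm (by linarith), av_eq_one hm' (by linarith)]
      · simp only [indicator_of_notMem ht]
        exact mul_nonneg (av_nonneg hL m t) (av_nonneg hL m' t)
  rw [integral_indicator measurableSet_Icc, setIntegral_const, Real.volume_real_Icc,
    smul_eq_mul] at h1
  have h2 : max (c + 5 / 2 * ρ - (c - 5 / 2 * ρ)) 0 = 5 * ρ := by
    rw [max_eq_left] <;> linarith
  rw [h2] at h1
  have h3 := mul_le_mul_of_nonneg_left h1 (by positivity : (0 : ℝ) ≤ 20 * ρ)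
  have h4 : 20 * ρ * (5 * ρ * ((10 * ρ)⁻¹ * (10 * ρ)⁻¹)) = 1 := by
    field_simp
    norm_num
  linarith

end

theorem adj : S_ADJ := by
  classical
  refine ⟨80, by norm_num, ?_⟩
  intro ι _ p m _ x ρ a b B hp ha hab hbρ hB hm hd
  have hb : 0 < b := ha.trans_le hab
  have hρ : 0 < ρ := hb.trans_le hbρ
  have := finite_sum p m
  set f := ∑ i, ENNReal.ofReal (p i) • m i with hf
  set R : ι → ι → Prop := fun i j => |x i - x j| ≤ 3 * ρ with hR
  set d : ι → ℝ → ℝ := fun i t => av a (m i) t - av b (m i) t with hdd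
  have hL : (0 : ℝ) < 10 * ρ := by positivity
  -- the first step
  have h1 : dd a b f ≤ ∑ i, ∑ j, if R i j then p i * p j * B else 0 := by
    have hdi : ∀ i, Integrable fun t => d i t ^ 2 := fun i => integrable_sub_sq ha hb (m i) (m i)
    have hI : ∀ i j, Integrable fun t =>
        if R i j then p i * p j * ((d i t ^ 2 + d j t ^ 2) / 2) else 0 := by
      intro i j
      by_cases h : R i j
      · simp only [h, if_true]
        exact (((hdi i).add (hdi j)).div_const 2).const_mul _
      · simp only [h, if_false]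
        exact integrable_zero _ _ _
    have h2 : ∀ t, (av a f t - av b f t) ^ 2 ≤
        ∑ i, ∑ j, if R i j then p i * p j * ((d i t ^ 2 + d j t ^ 2) / 2) else 0 := by
      intro t
      have h3 : av a f t - av b f t = ∑ i, p i * d i t := by
        rw [hf, av_sum p m hp, av_sum p m hp, ← Finset.sum_sub_distrib]
        refine Finset.sum_congr rfl fun i _ => ?_
        simp only [hdd]
        ring
      rw [h3]
      refine sq_sum_le p (fun i => d i t) hp R ?_
      have h4 : ∀ i, d i t ≠ 0 → |t - x i| ≤ 3 / 2 * ρ := by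
        intro i hi
        by_contra hc
        push Not at hc
        apply hi
        simp only [hdd]
        rw [av_eq_zero (hm i) (by linarith), av_eq_zero (hm i) (by linarith), sub_zero]
      intro i j hi hj
      have h5 := abs_sub_le (x i) t (x j)
      rw [abs_sub_comm (x i) t] at h5
      have h6 := h4 i hi
      have h7 := h4 j hj
      simp only [hR]
      linarith
    have h3 := integral_mono (integrable_sub_sq ha hb f f)
      (integrable_finsetSum _ fun i _ => integrable_finsetSum _ fun j _ => hI i j) h2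
    refine h3.trans ?_
    rw [integral_finsetSum _ fun i _ => integrable_finsetSum _ fun j _ => hI i j]
    refine Finset.sum_le_sum fun i _ => ?_
    rw [integral_finsetSum _ fun j _ => hI i j]
    refine Finset.sum_le_sum fun j _ => ?_
    by_cases h : R i j
    · simp only [h, if_true]
      rw [integral_const_mul, integral_div, integral_add (hdi i) (hdi j)]
      refine mul_le_mul_of_nonneg_left ?_ (mul_nonneg (hp i) (hp j))
      have e1 : ∫ t, d i t ^ 2 ≤ B := hd i
      have e2 : ∫ t, d j t ^ 2 ≤ B := hd j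
      linarith
    · simp only [h, if_false, integral_zero, le_refl]
  -- the second step
  have h2 : (∑ i, ∑ j, if R i j then p i * p j else 0) ≤ 20 * ρ * qq (10 * ρ) f := by
    have hI : ∀ i j, Integrable fun t => av (10 * ρ) (m i) t * av (10 * ρ) (m j) t := fun i j =>
      (memLp_av hL (m i)).integrable_mul (memLp_av hL (m j))
    have h3 : qq (10 * ρ) f =
        ∑ i, ∑ j, p i * p j * ∫ t, av (10 * ρ) (m i) t * av (10 * ρ) (m j) t := by
      unfold qq
      have h4 : ∀ t, av (10 * ρ) f t ^ 2 =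
          ∑ i, ∑ j, p i * p j * (av (10 * ρ) (m i) t * av (10 * ρ) (m j) t) := by
        intro t
        rw [hf, av_sum p m hp, sq, Finset.sum_mul_sum]
        refine Finset.sum_congr rfl fun i _ => Finset.sum_congr rfl fun j _ => ?_
        ring
      simp only [h4]
      rw [integral_finsetSum _ fun i _ => integrable_finsetSum _ fun j _ =>
        (hI i j).const_mul _]
      refine Finset.sum_congr rfl fun i _ => ?_
      rw [integral_finsetSum _ fun j _ => (hI i j).const_mul _]
      refine Finset.sum_congr rfl fun j _ => ?_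
      rw [integral_const_mul]
    rw [h3, Finset.mul_sum]
    refine Finset.sum_le_sum fun i _ => ?_
    rw [Finset.mul_sum]
    refine Finset.sum_le_sum fun j _ => ?_
    have h5 : 0 ≤ p i * p j := mul_nonneg (hp i) (hp j)
    split_ifs with h
    · have h6 := mul_le_mul_of_nonneg_left (cross hρ (hm i) (hm j) h) h5
      linarith
    · have h6 : 0 ≤ ∫ t, av (10 * ρ) (m i) t * av (10 * ρ) (m j) t :=
        integral_nonneg fun t => mul_nonneg (av_nonneg hL _ _) (av_nonneg hL _ _)
      positivity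
  have h3 : (∑ i, ∑ j, if R i j then p i * p j * B else 0) =
      B * ∑ i, ∑ j, if R i j then p i * p j else 0 := by
    rw [Finset.mul_sum]
    refine Finset.sum_congr rfl fun i _ => ?_
    rw [Finset.mul_sum]
    refine Finset.sum_congr rfl fun j _ => ?_
    split_ifs
    · ring
    · ring
  have h4 : qq (10 * ρ) f ≤ 4 * qq b f := qq_le_four hb (by linarith)
  calc dd a b f ≤ B * ∑ i, ∑ j, (if R i j then p i * p j else 0) := h1.trans (le_of_eq h3)
    _ ≤ B * (20 * ρ * qq (10 * ρ) f) := mul_le_mul_of_nonneg_left h2 hB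
    _ ≤ B * (20 * ρ * (4 * qq b f)) :=
        mul_le_mul_of_nonneg_left (mul_le_mul_of_nonneg_left h4 (by positivity)) hB
    _ = 80 * B * ρ * qq b f := by ring

end Pool.Agent.Y891.FA.Adj
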