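import Mathlib
import Pool.Agent.Y293.FA.Stm

set_option autoImplicit false

/-!
# The angular averages of the kernel
-/

namespace Pool.Agent.Y891.FA.Ker

open MeasureTheory Set Filter Topology intervalIntegral
open Pool.Agent.Y293.FA

theorem cont_kk (c d : ℝ) : Continuous (kk c d) := by
  unfold kk
  fun_prop

theorem kk_nonneg {c d : ℝ} (hc : 0 < c) (hd : 0 < d) (u : ℝ) : 0 ≤ kk c d u := by
  unfold kk
  have : 0 ≤ (c * d)⁻¹ := by positivity
  exact mul_nonneg this (le_max_left _ _)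

theorem kk_even (c d u : ℝ) : kk c d (-u) = kk c d u := by
  unfold kk
  rw [abs_neg]

theorem kk_anti {c d : ℝ} (hc : 0 < c) (hd : 0 < d) {u v : ℝ} (h : |u| ≤ |v|) :
    kk c d v ≤ kk c d u := by
  unfold kk
  refine mul_le_mul_of_nonneg_left ?_ (by positivity)
  refine max_le_max le_rfl (min_le_min le_rfl ?_)
  linarith

theorem kk_zero {c d u : ℝ} (h : (c + d) / 2 ≤ |u|) : kk c d u = 0 := by
  unfold kk
  rw [max_eq_left, mul_zero]
  exact (min_le_right _ _).trans (by linarith)

/-- The tent. -/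
def tn (h u : ℝ) : ℝ := max 0 (h - |u|)

theorem cont_tn (h : ℝ) : Continuous (tn h) := by
  unfold tn
  fun_prop

theorem kk_tn {c d : ℝ} (hc : 0 < c) (hd : 0 < d) (u : ℝ) : kk c d u = (c * d)⁻¹ * (tn ((c + d) / 2) u - tn (|c - d| / 2) u) := by
  unfold kk tn
  congr 1
  rcases abs_cases (c - d) with ⟨h, h'⟩ | ⟨h, h'⟩ <;> rw [h] <;>
  rcases min_cases c d with ⟨h3, h3'⟩ | ⟨h3, h3'⟩ <;> rw [h3] <;>
  simp only [max_def, min_def] <;> split_ifs <;> linarith

theorem integral_tn {h r : ℝ} (h0 : 0 ≤ h) (hr : h ≤ r) : ∫ u in (0 : ℝ)..r, tn h u = h ^ 2 / 2 := by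
  rw [← integral_add_adjacent_intervals (b := h) ((cont_tn h).intervalIntegrable _ _)
    ((cont_tn h).intervalIntegrable _ _)]
  have h1 : ∫ u in (0 : ℝ)..h, tn h u = ∫ u in (0 : ℝ)..h, (h - u) := by
    refine integral_congr ?_
    intro u hu
    rw [uIcc_of_le h0] at hu
    show max 0 (h - |u|) = h - u
    rw [abs_of_nonneg hu.1, max_eq_right]
    linarith [hu.2]
  have h2 : ∫ u in h..r, tn h u = ∫ u in h..r, (0 : ℝ) := by
    refine integral_congr ?_
    intro u hu
    rw [uIcc_of_le hr] at hu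
    show max 0 (h - |u|) = 0
    rw [abs_of_nonneg (h0.trans hu.1), max_eq_left]
    linarith [hu.1]
  have h3 : ∫ u in (0 : ℝ)..h, (h - u) = h ^ 2 / 2 := by
    have h4 : Continuous fun u : ℝ => u := continuous_id
    rw [intervalIntegral.integral_sub (continuous_const.intervalIntegrable _ _)
      (h4.intervalIntegrable _ _), intervalIntegral.integral_const, integral_id,
      smul_eq_mul]
    ring
  rw [h1, h2, h3, intervalIntegral.integral_zero, add_zero]

theorem integral_kk {c d r : ℝ} (hc : 0 < c) (hd : 0 < d) (hr : (c + d) / 2 ≤ r) :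
    ∫ u in (0 : ℝ)..r, kk c d u = 1 / 2 := by
  have h1 : |c - d| / 2 ≤ (c + d) / 2 := by
    have : |c - d| ≤ c + d := abs_le.2 ⟨by linarith, by linarith⟩
    linarith
  simp only [kk_tn hc hd]
  rw [intervalIntegral.integral_const_mul, intervalIntegral.integral_sub
    ((cont_tn _).intervalIntegrable _ _) ((cont_tn _).intervalIntegrable _ _),
    integral_tn (by positivity) hr, integral_tn (by positivity) (h1.trans hr), div_pow |c - d|, sq_abs]
  field_simp
  ring

theorem integral_kk_le {c d r : ℝ} (hc : 0 < c) (hd : 0 < d) :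
    ∫ u in (0 : ℝ)..r, kk c d u ≤ 1 / 2 := by
  have h1 := integral_kk hc hd (le_max_right r ((c + d) / 2))
  rw [← integral_add_adjacent_intervals (b := r) ((cont_kk c d).intervalIntegrable _ _)
    ((cont_kk c d).intervalIntegrable _ _)] at h1
  have h2 : 0 ≤ ∫ u in r..(max r ((c + d) / 2)), kk c d u :=
    integral_nonneg (le_max_left _ _) fun u _ => kk_nonneg hc hd u
  linarith

/-- The angular integral over a quarter of the circle. -/
noncomputable def I (c d r : ℝ) : ℝ := ∫ θ in (0 : ℝ)..(Real.pi / 2), kk c d (r * Real.sin θ)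

theorem cont_I (c d r : ℝ) : Continuous fun θ => kk c d (r * Real.sin θ) :=
  (cont_kk c d).comp (by fun_prop)

theorem I_nonneg {c d : ℝ} (hc : 0 < c) (hd : 0 < d) (r : ℝ) : 0 ≤ I c d r :=
  integral_nonneg (by positivity) fun _ _ => kk_nonneg hc hd _

theorem I_le {c d r : ℝ} (hc : 0 < c) (hd : 0 < d) (hr : 0 < r) : I c d r ≤ Real.pi / (4 * r) := by
  have hpi := Real.pi_pos
  have h1 : I c d r ≤ ∫ θ in (0 : ℝ)..(Real.pi / 2), kk c d (2 * r / Real.pi * θ) := by
    refine integral_mono_on (by positivity) ((cont_I c d r).intervalIntegrable _ _)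
      (((cont_kk c d).comp (by fun_prop)).intervalIntegrable _ _) ?_
    intro θ hθ
    refine kk_anti hc hd ?_
    have h2 := Real.mul_le_sin hθ.1 hθ.2
    have h3 : 0 ≤ 2 * r / Real.pi * θ := mul_nonneg (by positivity) hθ.1
    rw [abs_of_nonneg h3]
    refine le_trans ?_ (le_abs_self _)
    have h4 := mul_le_mul_of_nonneg_left h2 hr.le
    calc 2 * r / Real.pi * θ = r * (2 / Real.pi * θ) := by ring
      _ ≤ r * Real.sin θ := h4
  have h2 : ∫ θ in (0 : ℝ)..(Real.pi / 2), kk c d (2 * r / Real.pi * θ) =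
      (2 * r / Real.pi)⁻¹ * ∫ u in (0 : ℝ)..r, kk c d u := by
    rw [intervalIntegral.integral_comp_mul_left (fun u => kk c d u)
      (show 2 * r / Real.pi ≠ 0 by positivity), smul_eq_mul]
    congr 2
    · ring
    · field_simp
  rw [h2] at h1
  refine h1.trans ?_
  have h3 := integral_kk_le (r := r) hc hd
  calc (2 * r / Real.pi)⁻¹ * ∫ u in (0 : ℝ)..r, kk c d u ≤ (2 * r / Real.pi)⁻¹ * (1 / 2) :=
        mul_le_mul_of_nonneg_left h3 (by positivity)
    _ = Real.pi / (4 * r) := by
        field_simp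
        ring

theorem integral_cos {c d r : ℝ} (hc : 0 < c) (hd : 0 < d) (hr : 0 < r) (h : (c + d) / 2 ≤ r) :
    ∫ θ in (0 : ℝ)..(Real.pi / 2), kk c d (r * Real.sin θ) * Real.cos θ = 1 / (2 * r) := by
  have h1 := intervalIntegral.integral_comp_mul_deriv (a := 0) (b := Real.pi / 2)
    (f := fun θ => r * Real.sin θ) (f' := fun θ => r * Real.cos θ) (g := kk c d)
    (fun θ _ => (Real.hasDerivAt_sin θ).const_mul r) (by fun_prop) (cont_kk c d)
  simp only [Function.comp_apply, Real.sin_zero, mul_zero, Real.sin_pi_div_two, mul_one] at h1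
  rw [integral_kk hc hd h] at h1
  have h2 : ∫ θ in (0 : ℝ)..(Real.pi / 2), kk c d (r * Real.sin θ) * (r * Real.cos θ) =
      r * ∫ θ in (0 : ℝ)..(Real.pi / 2), kk c d (r * Real.sin θ) * Real.cos θ := by
    rw [← intervalIntegral.integral_const_mul]
    refine integral_congr fun θ _ => ?_
    ring
  rw [h2] at h1
  field_simp
  linarith

theorem I_err {b c d r : ℝ} (hc : 0 < c) (hd : 0 < d) (hcb : c ≤ b) (hdb : d ≤ b) (hr : b ≤ r) :
    0 ≤ I c d r - 1 / (2 * r) ∧ I c d r - 1 / (2 * r) ≤ b ^ 2 / r ^ 2 * I c d r := by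
  have hb : 0 < b := hc.trans_le hcb
  have hr0 : 0 < r := hb.trans_le hr
  have hcos : Continuous fun θ => kk c d (r * Real.sin θ) * Real.cos θ :=
    (cont_I c d r).mul Real.continuous_cos
  have h1 : I c d r - 1 / (2 * r) =
      ∫ θ in (0 : ℝ)..(Real.pi / 2), kk c d (r * Real.sin θ) * (1 - Real.cos θ) := by
    rw [← integral_cos hc hd hr0 (by linarith), I,
      ← intervalIntegral.integral_sub ((cont_I c d r).intervalIntegrable _ _)
        (hcos.intervalIntegrable _ _)]
    refine integral_congr fun θ _ => ?_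
    ring
  rw [h1]
  refine ⟨integral_nonneg (by positivity) fun θ _ =>
    mul_nonneg (kk_nonneg hc hd _) (by linarith [Real.cos_le_one θ]), ?_⟩
  unfold I
  rw [← intervalIntegral.integral_const_mul]
  refine integral_mono_on (by positivity)
    (((cont_I c d r).mul (by fun_prop)).intervalIntegrable _ _)
    (((cont_I c d r).const_mul _).intervalIntegrable _ _) ?_
  intro θ hθ
  rw [mul_comm (b ^ 2 / r ^ 2)]
  by_cases hz : (c + d) / 2 ≤ |r * Real.sin θ|
  · rw [kk_zero hz, zero_mul, zero_mul]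
  · refine mul_le_mul_of_nonneg_left ?_ (kk_nonneg hc hd _)
    push Not at hz
    have hs0 : 0 ≤ Real.sin θ := Real.sin_nonneg_of_nonneg_of_le_pi hθ.1
      (hθ.2.trans (by linarith [Real.pi_pos]))
    have hc0 : 0 ≤ Real.cos θ := Real.cos_nonneg_of_mem_Icc
      ⟨by linarith [hθ.1, Real.pi_pos], hθ.2⟩
    rw [abs_of_nonneg (mul_nonneg hr0.le hs0)] at hz
    have h2 : (r * Real.sin θ) ^ 2 ≤ b ^ 2 :=
      pow_le_pow_left₀ (mul_nonneg hr0.le hs0) (by linarith) 2
    rw [le_div_iff₀ (by positivity)]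
    have h3 := Real.sin_sq_add_cos_sq θ
    have h4 : 1 - Real.cos θ ≤ Real.sin θ ^ 2 := by nlinarith [Real.cos_le_one θ]
    calc (1 - Real.cos θ) * r ^ 2 ≤ Real.sin θ ^ 2 * r ^ 2 :=
          mul_le_mul_of_nonneg_right h4 (by positivity)
      _ = (r * Real.sin θ) ^ 2 := by ring
      _ ≤ b ^ 2 := h2

/-- Reduction to a quarter of the circle. -/
theorem quarter {g : ℝ → ℝ} (hg : Continuous g) (he : ∀ u, g (-u) = g u) (z : ℂ) :
    ∫ θ in (0 : ℝ)..2 * Real.pi, g (pr θ z) =
      4 * ∫ θ in (0 : ℝ)..(Real.pi / 2), g (‖z‖ * Real.sin θ) := by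
  set r := ‖z‖ with hr
  set φ := z.arg with hφ
  set F : ℝ → ℝ := fun θ => g (r * Real.sin θ) with hF
  have hFc : Continuous F := hg.comp (by fun_prop)
  have hpr : ∀ θ, pr θ z = r * Real.sin (θ + (Real.pi / 2 - φ)) := by
    intro θ
    have h1 : z.re = r * Real.cos φ := by rw [hr, hφ, Complex.norm_mul_cos_arg]
    have h2 : z.im = r * Real.sin φ := by rw [hr, hφ, Complex.norm_mul_sin_arg]
    have h3 : Real.sin (θ + (Real.pi / 2 - φ)) = Real.cos (θ - φ) := by
      rw [← Real.sin_add_pi_div_two]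
      congr 1
      ring
    rw [pr, h1, h2, h3, Real.cos_sub]
    ring
  have hper : Function.Periodic F (2 * Real.pi) := by
    intro θ
    simp only [hF]
    rw [Real.sin_add_two_pi]
  have hper' : Function.Periodic F Real.pi := by
    intro θ
    simp only [hF]
    rw [Real.sin_add_pi, mul_neg, he]
  have h1 : ∫ θ in (0 : ℝ)..2 * Real.pi, g (pr θ z) =
      ∫ θ in (0 : ℝ)..2 * Real.pi, F (θ + (Real.pi / 2 - φ)) := by
    refine integral_congr fun θ _ => ?_
    simp only [hF]
    rw [hpr]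
  rw [h1, intervalIntegral.integral_comp_add_right, zero_add, add_comm (2 * Real.pi),
    hper.intervalIntegral_add_eq (Real.pi / 2 - φ) 0, zero_add]
  have h2 : ∫ θ in (0 : ℝ)..2 * Real.pi, F θ = 2 * ∫ θ in (0 : ℝ)..Real.pi, F θ := by
    rw [← integral_add_adjacent_intervals (b := Real.pi) (hFc.intervalIntegrable _ _)
      (hFc.intervalIntegrable _ _)]
    have h3 := hper'.intervalIntegral_add_eq Real.pi 0
    rw [zero_add, ← two_mul] at h3
    rw [h3]
    ring
  have h4 : ∫ θ in (0 : ℝ)..Real.pi, F θ = 2 * ∫ θ in (0 : ℝ)..(Real.pi / 2), F θ := by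
    rw [← integral_add_adjacent_intervals (b := Real.pi / 2) (hFc.intervalIntegrable _ _)
      (hFc.intervalIntegrable _ _)]
    have h5 : ∫ θ in (Real.pi / 2)..Real.pi, F θ = ∫ θ in (0 : ℝ)..(Real.pi / 2), F θ := by
      have h6 := intervalIntegral.integral_comp_sub_left (a := 0) (b := Real.pi / 2) F Real.pi
      have h7 : Real.pi - Real.pi / 2 = Real.pi / 2 := by ring
      rw [h7, sub_zero] at h6
      rw [← h6]
      refine integral_congr fun θ _ => ?_
      simp only [hF]
      rw [Real.sin_pi_sub]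
    rw [h5]
    ring
  rw [h2, h4]
  ring

theorem comb {b r x y z : ℝ} (hx : 0 ≤ x) (hy : 0 ≤ y) (hz : 0 ≤ z) (hx' : x ≤ b) (hy' : y ≤ b)
    (hz' : z ≤ b) (h : 2 * b ≤ r) : |x - 2 * y + z| ≤ r := by
  rw [abs_le]
  constructor <;> linarith

theorem ker : S_KER := by
  refine ⟨2 * Real.pi, by positivity, ?_⟩
  intro a b ha hab z hz
  have hb : 0 < b := ha.trans_le hab
  have hpi := Real.pi_pos
  have hr : 0 < ‖z‖ := norm_pos_iff.2 hz
  set r := ‖z‖ with hrdef
  have h1 := quarter (g := fun u => kk a a u - 2 * kk a b u + kk b b u)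
    (((cont_kk a a).sub ((cont_kk a b).const_mul 2)).add (cont_kk b b))
    (fun u => by simp only [kk_even]) z
  have h2 : ∫ θ in (0 : ℝ)..(Real.pi / 2), (kk a a (r * Real.sin θ) - 2 * kk a b (r * Real.sin θ) +
      kk b b (r * Real.sin θ)) = I a a r - 2 * I a b r + I b b r := by
    unfold I
    have i1 : Continuous fun θ => 2 * kk a b (r * Real.sin θ) := (cont_I a b r).const_mul 2
    have i2 : Continuous fun θ => kk a a (r * Real.sin θ) - 2 * kk a b (r * Real.sin θ) :=
      (cont_I a a r).sub i1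
    rw [intervalIntegral.integral_add (i2.intervalIntegrable _ _)
        ((cont_I b b r).intervalIntegrable _ _),
      intervalIntegral.integral_sub ((cont_I a a r).intervalIntegrable _ _)
        (i1.intervalIntegrable _ _), intervalIntegral.integral_const_mul]
  rw [← hrdef] at h1
  rw [h2] at h1
  rw [h1, abs_mul, abs_of_pos (by norm_num : (0 : ℝ) < 4)]
  have hA : |I a a r - 2 * I a b r + I b b r| ≤ Real.pi / (2 * r) :=
    comb (I_nonneg ha ha r) (I_nonneg ha hb r) (I_nonneg hb hb r) (I_le ha ha hr) (I_le ha hb hr)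
      (I_le hb hb hr) (le_of_eq (by ring))
  have hB1 : 4 * |I a a r - 2 * I a b r + I b b r| ≤ 2 * Real.pi * r⁻¹ := by
    calc 4 * |I a a r - 2 * I a b r + I b b r| ≤ 4 * (Real.pi / (2 * r)) := by linarith
      _ = 2 * Real.pi * r⁻¹ := by field_simp; ring
  have hB2 : 4 * |I a a r - 2 * I a b r + I b b r| ≤ 2 * Real.pi * (b ^ 2 * r⁻¹ ^ 3) := by
    rcases le_total b r with hbr | hbr
    · have e1 := I_err ha ha hab hab hbr
      have e2 := I_err ha hb hab le_rfl hbr
      have e3 := I_err hb hb le_rfl le_rfl hbr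
      have hq : 0 ≤ b ^ 2 / r ^ 2 := by positivity
      have f1 := mul_le_mul_of_nonneg_left (I_le ha ha hr) hq
      have f2 := mul_le_mul_of_nonneg_left (I_le ha hb hr) hq
      have f3 := mul_le_mul_of_nonneg_left (I_le hb hb hr) hq
      have hc := comb e1.1 e2.1 e3.1 (e1.2.trans f1) (e2.2.trans f2) (e3.2.trans f3) le_rfl
      have he : I a a r - 1 / (2 * r) - 2 * (I a b r - 1 / (2 * r)) + (I b b r - 1 / (2 * r)) =
          I a a r - 2 * I a b r + I b b r := by ring
      rw [he] at hc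
      calc 4 * |I a a r - 2 * I a b r + I b b r| ≤
            4 * (2 * (b ^ 2 / r ^ 2 * (Real.pi / (4 * r)))) := by linarith
        _ = 2 * Real.pi * (b ^ 2 * r⁻¹ ^ 3) := by field_simp
    · refine hB1.trans ?_
      refine mul_le_mul_of_nonneg_left ?_ (by positivity)
      have h3 : r ^ 2 ≤ b ^ 2 := pow_le_pow_left₀ hr.le hbr 2
      calc r⁻¹ = r ^ 2 * r⁻¹ ^ 3 := by field_simp
        _ ≤ b ^ 2 * r⁻¹ ^ 3 := mul_le_mul_of_nonneg_right h3 (by positivity)
  rw [mul_min_of_nonneg _ _ (by positivity : (0:ℝ) ≤ 2 * Real.pi)]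
  exact le_min hB1 hB2

end Pool.Agent.Y891.FA.Ker
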